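import Pool.Agent.Mg.F5d23e6.Gb3bc2e

namespace Pool.Agent.Results.MP_5d23e6_lc.ReapingEq

open Pool.Agent.MP_5d23e6_lc

/-- For every nonempty `X ⊆ (0,1)` the `X`-reaping number equals the `1/2`-reaping number; the case
`X = (0,1)` says `r_{(0,1)} = r_{1/2}`. -/
theorem result (X : Set ℝ) (hne : X.Nonempty) (hX : X ⊆ Set.Ioo 0 1) :
    reapingNumber (some '' X) = reapingNumber {some (1 / 2)} :=
  reaping_eq_half X hne hX

end Pool.Agent.Results.MP_5d23e6_lc.ReapingEq
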